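import Pool.Agent.W123.RP.Abs

set_option autoImplicit false

/-!
# Points of a set around which the set is balanced at all scales

`P ⊆ P'` are sets of natural numbers, `X` is large, `L ≤ sqrt X`. If `P'` has `O(X / L)` elements up
to `4 X` and bounded second moment in windows of length `L`, then all but `O(lam^(-1/2) X / L)` of the
elements `p` of `P` in `(X, 2 X]` are such that every interval `(a, b]` of length at most `X` which
contains `p` has at least `(b - a) / (lam L)` elements of `P` and at most `lam (1 + (b - a) / L)`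
elements of `P'`.
-/

namespace Pool.Agent.H243.BP

open Finset Pool.Agent.W123.RP

open Classical in
/-- every interval `(a, b]` with `p` in it and `b - a ≤ X` has the right number of elements of `P`
and `P'`, up to the factor `lam` -/
def Bal (P P' : ℕ → Prop) (lam L : ℝ) (X p : ℕ) : Prop :=
  ∀ a b : ℕ, a < p → p ≤ b → b ≤ a + X →
    ((b : ℝ) - a) / (lam * L) ≤ co P a b ∧ (co P' a b : ℝ) ≤ lam * (1 + ((b : ℝ) - a) / L)

open Classical in
/-- right upper bound -/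
lemma up_right (C1 C2 : ℝ) (hC1 : 0 < C1) (hC2 : 0 < C2) (P' : ℕ → Prop) (X : ℕ) (L : ℝ)
    (hL : 2 ≤ L) (hLX : L ≤ X) (hup : (co P' 0 (4 * X) : ℝ) ≤ C1 * X / L)
    (hmom : ∑ n ∈ Finset.Ico (X + 1 - ⌊L⌋₊) (2 * X + 1), ((co P' n (n + ⌊L⌋₊) : ℝ)) ^ 2 ≤ C2 * X)
    (μ : ℝ) (hμ : 0 < μ) :
    (((Finset.Ioc X (2 * X)).filter (fun p => P' p ∧ ∃ H : ℕ, 1 ≤ H ∧ H ≤ X ∧
      μ * (1 + (H : ℝ) / L) < co P' p (p + H))).card : ℝ) ≤ 2 * √(C1 * C2 / μ) * X / L := by
  have hL0 : 0 < L := by linarith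
  have hX0 : (0 : ℝ) < X := by linarith
  set T := ⌊L⌋₊ with hT
  have hTL : (T : ℝ) ≤ L := Nat.floor_le hL0.le
  have hTX : T ≤ X := by
    have : (T : ℝ) ≤ X := hTL.trans hLX
    exact_mod_cast this
  have hT2 : L / 2 ≤ T := by
    have := Nat.lt_floor_add_one L
    rw [← hT] at this
    linarith
  have hT0 : (0 : ℝ) < T := by linarith
  set G := (Finset.Ioc X (2 * X)).filter (fun p => P' p ∧ ∃ H : ℕ, 1 ≤ H ∧ H ≤ X ∧
      μ * (1 + (H : ℝ) / L) < co P' p (p + H)) with hG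
  have h1 := moment_method (P := P') G (X + 1 - T) (2 * X + 1) T (by
    intro g hg
    rw [hG, mem_filter, mem_Ioc] at hg
    exact ⟨by omega, by omega, hg.2.1⟩) (C2 * X) (by positivity) hmom
  obtain ⟨τ, hτ⟩ : ∃ τ : ℝ, τ = μ / L := ⟨_, rfl⟩
  have hτ0 : 0 < τ := by rw [hτ]; positivity
  have h2 := max_right (P := P') τ hτ0 (4 * X) (4 * X - 0) 0 rfl (by omega)
  have h3 : (Finset.Ico (X + 1 - T) (2 * X + 1)).filter (fun m => ∃ g ∈ G, m < g ∧ g ≤ m + T) ⊆
      (Finset.Ico 0 (4 * X)).filter (fun n => ∃ H : ℕ, 1 ≤ H ∧ n + H ≤ 4 * X ∧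
        τ * H < (co P' n (n + H) : ℝ)) := by
    intro m hm
    rw [mem_filter, mem_Ico] at hm
    obtain ⟨⟨hm1, hm2⟩, g, hg, hmg, hgm⟩ := hm
    rw [hG, mem_filter, mem_Ioc] at hg
    obtain ⟨⟨hg1, hg2⟩, hg3, H, hH1, hH2, hH3⟩ := hg
    rw [mem_filter, mem_Ico]
    refine ⟨⟨by omega, by omega⟩, g + H - m, by omega, by omega, ?_⟩
    have e1 : m + (g + H - m) = g + H := by omega
    rw [e1]
    have h4 : (co P' g (g + H) : ℝ) ≤ co P' m (g + H) := by
      exact_mod_cast co_anti (by omega)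
    have h5 : ((g + H - m : ℕ) : ℝ) ≤ H + L := by
      have : g + H - m ≤ H + T := by omega
      have h6 : ((g + H - m : ℕ) : ℝ) ≤ H + T := by exact_mod_cast this
      linarith
    refine lt_of_le_of_lt ?_ (lt_of_lt_of_le hH3 h4)
    rw [hτ]
    calc μ / L * ((g + H - m : ℕ) : ℝ) ≤ μ / L * (H + L) := by gcongr
      _ = μ * (1 + (H : ℝ) / L) := by field_simp; ring
  have h4 : ((T : ℝ) * G.card) ^ 2 / (C2 * X) ≤ C1 * X / μ := by
    refine h1.trans ?_
    have h5 : (((Finset.Ico (X + 1 - T) (2 * X + 1)).filter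
        (fun m => ∃ g ∈ G, m < g ∧ g ≤ m + T)).card : ℝ) ≤
        (((Finset.Ico 0 (4 * X)).filter (fun n => ∃ H : ℕ, 1 ≤ H ∧ n + H ≤ 4 * X ∧
        τ * H < (co P' n (n + H) : ℝ))).card : ℝ) := by exact_mod_cast card_le_card h3
    have h6 := mul_le_mul_of_nonneg_left h5 hτ0.le
    have h7 := (h6.trans h2).trans hup
    have h8 : τ * (C1 * X / μ) = C1 * X / L := by rw [hτ]; field_simp
    rw [← h8] at h7
    exact le_of_mul_le_mul_left h7 hτ0
  have h5 : (T : ℝ) * G.card ≤ √(C1 * C2 / μ) * X := by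
    rw [div_le_iff₀ (by positivity)] at h4
    have h6 : C1 * X / μ * (C2 * X) = (√(C1 * C2 / μ) * X) ^ 2 := by
      rw [mul_pow, Real.sq_sqrt (by positivity)]
      ring
    rw [h6] at h4
    exact abs_le_of_sq_le_sq' h4 (by positivity) |>.2
  have h6 : L / 2 * G.card ≤ √(C1 * C2 / μ) * X := by
    refine le_trans ?_ h5
    gcongr
  rw [le_div_iff₀ hL0]
  linarith

open Classical in
/-- left upper bound -/
lemma up_left (C1 C2 : ℝ) (hC1 : 0 < C1) (hC2 : 0 < C2) (P' : ℕ → Prop) (X : ℕ) (L : ℝ)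
    (hL : 2 ≤ L) (hLX : L ≤ X) (hup : (co P' 0 (4 * X) : ℝ) ≤ C1 * X / L)
    (hmom : ∑ n ∈ Finset.Ico (X + 1 - ⌊L⌋₊) (2 * X + 1), ((co P' n (n + ⌊L⌋₊) : ℝ)) ^ 2 ≤ C2 * X)
    (μ : ℝ) (hμ : 0 < μ) :
    (((Finset.Ioc X (2 * X)).filter (fun p => P' p ∧ ∃ H : ℕ, 1 ≤ H ∧ H ≤ X ∧
      μ * (1 + (H : ℝ) / L) < co P' (p - H) p)).card : ℝ) ≤ 2 * √(C1 * C2 / μ) * X / L := by
  have hL0 : 0 < L := by linarith
  have hX0 : (0 : ℝ) < X := by linarith
  set T := ⌊L⌋₊ with hT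
  have hTL : (T : ℝ) ≤ L := Nat.floor_le hL0.le
  have hTX : T ≤ X := by
    have : (T : ℝ) ≤ X := hTL.trans hLX
    exact_mod_cast this
  have hT2 : L / 2 ≤ T := by
    have := Nat.lt_floor_add_one L
    rw [← hT] at this
    linarith
  have hT0 : (0 : ℝ) < T := by linarith
  set G := (Finset.Ioc X (2 * X)).filter (fun p => P' p ∧ ∃ H : ℕ, 1 ≤ H ∧ H ≤ X ∧
      μ * (1 + (H : ℝ) / L) < co P' (p - H) p) with hG
  have h1 := moment_method (P := P') G (X + 1 - T) (2 * X + 1) T (by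
    intro g hg
    rw [hG, mem_filter, mem_Ioc] at hg
    exact ⟨by omega, by omega, hg.2.1⟩) (C2 * X) (by positivity) hmom
  obtain ⟨τ, hτ⟩ : ∃ τ : ℝ, τ = μ / L := ⟨_, rfl⟩
  have hτ0 : 0 < τ := by rw [hτ]; positivity
  have h2 := max_left (P := P') τ hτ0 0 (4 * X - 0) (4 * X) rfl (by omega)
  have h3 : ((Finset.Ico (X + 1 - T) (2 * X + 1)).filter
      (fun m => ∃ g ∈ G, m < g ∧ g ≤ m + T)).card ≤
      ((Finset.Ioc 0 (4 * X)).filter (fun n => ∃ H : ℕ, 1 ≤ H ∧ 0 + H ≤ n ∧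
        τ * H < (co P' (n - H) n : ℝ))).card := by
    apply card_le_card_of_injOn (fun m => m + T)
    · intro m hm
      rw [mem_coe, mem_filter, mem_Ico] at hm
      obtain ⟨⟨hm1, hm2⟩, g, hg, hmg, hgm⟩ := hm
      rw [hG, mem_filter, mem_Ioc] at hg
      obtain ⟨⟨hg1, hg2⟩, hg3, H, hH1, hH2, hH3⟩ := hg
      rw [mem_coe, mem_filter, mem_Ioc]
      beta_reduce
      refine ⟨⟨by omega, by omega⟩, m + T - (g - H), by omega, by omega, ?_⟩
      have e1 : m + T - (m + T - (g - H)) = g - H := by omega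
      show τ * ((m + T - (g - H) : ℕ) : ℝ) < (co P' (m + T - (m + T - (g - H))) (m + T) : ℝ)
      rw [e1]
      have h4 : (co P' (g - H) g : ℝ) ≤ co P' (g - H) (m + T) := by
        exact_mod_cast co_mono (by omega)
      have h5 : ((m + T - (g - H) : ℕ) : ℝ) ≤ H + L := by
        have : m + T - (g - H) ≤ H + T := by omega
        have h6 : ((m + T - (g - H) : ℕ) : ℝ) ≤ H + T := by exact_mod_cast this
        linarith
      refine lt_of_le_of_lt ?_ (lt_of_lt_of_le hH3 h4)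
      rw [hτ]
      calc μ / L * ((m + T - (g - H) : ℕ) : ℝ) ≤ μ / L * (H + L) := by gcongr
        _ = μ * (1 + (H : ℝ) / L) := by field_simp; ring
    · intro a _ b _ h
      simpa using h
  have h4 : ((T : ℝ) * G.card) ^ 2 / (C2 * X) ≤ C1 * X / μ := by
    refine h1.trans ?_
    have h5 : (((Finset.Ico (X + 1 - T) (2 * X + 1)).filter
        (fun m => ∃ g ∈ G, m < g ∧ g ≤ m + T)).card : ℝ) ≤
        (((Finset.Ioc 0 (4 * X)).filter (fun n => ∃ H : ℕ, 1 ≤ H ∧ 0 + H ≤ n ∧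
        τ * H < (co P' (n - H) n : ℝ))).card : ℝ) := by exact_mod_cast h3
    have h6 := mul_le_mul_of_nonneg_left h5 hτ0.le
    have h7 := (h6.trans h2).trans hup
    have h8 : τ * (C1 * X / μ) = C1 * X / L := by rw [hτ]; field_simp
    rw [← h8] at h7
    exact le_of_mul_le_mul_left h7 hτ0
  have h5 : (T : ℝ) * G.card ≤ √(C1 * C2 / μ) * X := by
    rw [div_le_iff₀ (by positivity)] at h4
    have h6 : C1 * X / μ * (C2 * X) = (√(C1 * C2 / μ) * X) ^ 2 := by
      rw [mul_pow, Real.sq_sqrt (by positivity)]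
      ring
    rw [h6] at h4
    exact abs_le_of_sq_le_sq' h4 (by positivity) |>.2
  have h6 : L / 2 * G.card ≤ √(C1 * C2 / μ) * X := by
    refine le_trans ?_ h5
    gcongr
  rw [le_div_iff₀ hL0]
  linarith

open Classical in
/-- right lower bound -/
lemma low_right (P : ℕ → Prop) (X : ℕ) (hX : 1 ≤ X) (c : ℝ) (hc : 0 < c) :
    (((Finset.Ioc X (2 * X)).filter (fun p => P p ∧ ∃ H : ℕ, 1 ≤ H ∧ H ≤ X ∧
      (cl P p (p + H) : ℝ) < c * H)).card : ℝ) ≤ 2 * c * X := by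
  have h1 := lower_right (P := P) c hc X (2 * X + 1 - (X + 1)) (X + 1) (2 * X + 1) rfl (by omega)
  set Gd := (Finset.Ico (X + 1) (2 * X + 1)).filter (fun n => ∀ H : ℕ, 1 ≤ H →
      H ≤ X → c * H ≤ cl P n (n + H)) with hGd
  set Bd := (Finset.Ioc X (2 * X)).filter (fun p => P p ∧ ∃ H : ℕ, 1 ≤ H ∧ H ≤ X ∧
      (cl P p (p + H) : ℝ) < c * H) with hBd
  have h2 : Bd.card + Gd.card ≤ cl P (X + 1) (2 * X + 1) := by
    rw [← card_union_of_disjoint]
    · unfold cl
      apply card_le_card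
      intro n hn
      rw [mem_union, hBd, hGd, mem_filter, mem_filter, mem_Ioc, mem_Ico] at hn
      rw [mem_filter, mem_Ico]
      rcases hn with ⟨h3, h4, -⟩ | ⟨h3, h4⟩
      · exact ⟨by omega, h4⟩
      · exact ⟨by omega, mem_of_cl hc (h4 1 le_rfl hX)⟩
    · rw [disjoint_left]
      intro n hn hn'
      rw [hBd, mem_filter] at hn
      rw [hGd, mem_filter] at hn'
      obtain ⟨-, -, H, h5, h6, h7⟩ := hn
      exact absurd (hn'.2 H h5 h6) (not_le.2 h7)
  have h3 : (Bd.card : ℝ) + Gd.card ≤ cl P (X + 1) (2 * X + 1) := by exact_mod_cast h2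
  push_cast at h1
  nlinarith

open Classical in
/-- left lower bound -/
lemma low_left (P : ℕ → Prop) (X : ℕ) (hX : 1 ≤ X) (c : ℝ) (hc : 0 < c) :
    (((Finset.Ioc X (2 * X)).filter (fun p => P p ∧ ∃ H : ℕ, 1 ≤ H ∧ H ≤ X ∧
      (cl P (p + 1 - H) (p + 1) : ℝ) < c * H)).card : ℝ) ≤ 2 * c * X := by
  have h1 := lower_left (P := P) c hc X (2 * X + 1 - (X + 1)) (X + 1) (2 * X + 1) rfl (by omega)
  set Gd := (Finset.Ico (X + 1) (2 * X + 1)).filter (fun n => ∀ H : ℕ, 1 ≤ H →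
      H ≤ X → H ≤ n + 1 → c * H ≤ cl P (n + 1 - H) (n + 1)) with hGd
  set Bd := (Finset.Ioc X (2 * X)).filter (fun p => P p ∧ ∃ H : ℕ, 1 ≤ H ∧ H ≤ X ∧
      (cl P (p + 1 - H) (p + 1) : ℝ) < c * H) with hBd
  have h2 : Bd.card + Gd.card ≤ cl P (X + 1) (2 * X + 1) := by
    rw [← card_union_of_disjoint]
    · unfold cl
      apply card_le_card
      intro n hn
      rw [mem_union, hBd, hGd, mem_filter, mem_filter, mem_Ioc, mem_Ico] at hn
      rw [mem_filter, mem_Ico]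
      rcases hn with ⟨h3, h4, -⟩ | ⟨h3, h4⟩
      · exact ⟨by omega, h4⟩
      · refine ⟨by omega, mem_of_cl hc (n := n) ?_⟩
        have h5 := h4 1 le_rfl hX (by omega)
        rwa [Nat.add_sub_cancel] at h5
    · rw [disjoint_left]
      intro n hn hn'
      rw [hBd, mem_filter, mem_Ioc] at hn
      rw [hGd, mem_filter, mem_Ico] at hn'
      obtain ⟨h8, -, H, h5, h6, h7⟩ := hn
      exact absurd (hn'.2 H h5 h6 (by omega)) (not_le.2 h7)
  have h3 : (Bd.card : ℝ) + Gd.card ≤ cl P (X + 1) (2 * X + 1) := by exact_mod_cast h2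
  push_cast at h1
  nlinarith

open Classical in
/-- **Balanced points, abstract form.** -/
theorem balanced_abs (C1 C2 : ℝ) (hC1 : 0 < C1) (hC2 : 0 < C2) (P P' : ℕ → Prop) (X : ℕ) (L : ℝ)
    (hL : 2 ≤ L) (hLX : L ≤ X) (hPP : ∀ n, P n → P' n)
    (hup : (co P' 0 (4 * X) : ℝ) ≤ C1 * X / L)
    (hmom : ∑ n ∈ Finset.Ico (X + 1 - ⌊L⌋₊) (2 * X + 1), ((co P' n (n + ⌊L⌋₊) : ℝ)) ^ 2 ≤ C2 * X)
    (lam : ℝ) (hlam : 1 ≤ lam) :
    (((Finset.Ioc X (2 * X)).filter (fun p => P p ∧ ¬ Bal P P' lam L X p)).card : ℝ) ≤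
      (4 * √(2 * C1 * C2) + 8) / √lam * (X / L) := by
  have hL0 : 0 < L := by linarith
  have hX0 : (0 : ℝ) < X := by linarith
  have hX1 : 1 ≤ X := by exact_mod_cast (by exact_mod_cast hX0 : 0 < X)
  have hl0 : 0 < lam := by linarith
  have hm0 : 0 < lam / 2 := by positivity
  have hc0 : 0 < 2 / (lam * L) := by positivity
  have a1 := up_right C1 C2 hC1 hC2 P' X L hL hLX hup hmom (lam / 2) hm0
  have a2 := up_left C1 C2 hC1 hC2 P' X L hL hLX hup hmom (lam / 2) hm0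
  have a3 := low_right P X hX1 (2 / (lam * L)) hc0
  have a4 := low_left P X hX1 (2 / (lam * L)) hc0
  set G1 := (Finset.Ioc X (2 * X)).filter (fun p => P' p ∧ ∃ H : ℕ, 1 ≤ H ∧ H ≤ X ∧
      lam / 2 * (1 + (H : ℝ) / L) < co P' p (p + H)) with hG1
  set G2 := (Finset.Ioc X (2 * X)).filter (fun p => P' p ∧ ∃ H : ℕ, 1 ≤ H ∧ H ≤ X ∧
      lam / 2 * (1 + (H : ℝ) / L) < co P' (p - H) p) with hG2
  set G3 := (Finset.Ioc X (2 * X)).filter (fun p => P p ∧ ∃ H : ℕ, 1 ≤ H ∧ H ≤ X ∧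
      (cl P p (p + H) : ℝ) < 2 / (lam * L) * H) with hG3
  set G4 := (Finset.Ioc X (2 * X)).filter (fun p => P p ∧ ∃ H : ℕ, 1 ≤ H ∧ H ≤ X ∧
      (cl P (p + 1 - H) (p + 1) : ℝ) < 2 / (lam * L) * H) with hG4
  have hsub : (Finset.Ioc X (2 * X)).filter (fun p => P p ∧ ¬ Bal P P' lam L X p) ⊆
      (G1 ∪ G2) ∪ (G3 ∪ G4) := by
    intro p hp
    rw [mem_filter, mem_Ioc] at hp
    obtain ⟨⟨hp1, hp2⟩, hP, hnb⟩ := hp
    by_contra hcon
    rw [mem_union, mem_union, mem_union, not_or, not_or, not_or] at hcon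
    obtain ⟨⟨n1, n2⟩, n3, n4⟩ := hcon
    have m1 : ∀ H : ℕ, 1 ≤ H → H ≤ X → (co P' p (p + H) : ℝ) ≤ lam / 2 * (1 + (H : ℝ) / L) := by
      intro H h1 h2
      by_contra h3
      exact n1 (by rw [hG1, mem_filter, mem_Ioc]; exact ⟨⟨hp1, hp2⟩, hPP p hP, H, h1, h2, not_le.1 h3⟩)
    have m2 : ∀ H : ℕ, 1 ≤ H → H ≤ X → (co P' (p - H) p : ℝ) ≤ lam / 2 * (1 + (H : ℝ) / L) := by
      intro H h1 h2
      by_contra h3
      exact n2 (by rw [hG2, mem_filter, mem_Ioc]; exact ⟨⟨hp1, hp2⟩, hPP p hP, H, h1, h2, not_le.1 h3⟩)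
    have m3 : ∀ H : ℕ, 1 ≤ H → H ≤ X → 2 / (lam * L) * H ≤ (cl P p (p + H) : ℝ) := by
      intro H h1 h2
      by_contra h3
      exact n3 (by rw [hG3, mem_filter, mem_Ioc]; exact ⟨⟨hp1, hp2⟩, hP, H, h1, h2, not_le.1 h3⟩)
    have m4 : ∀ H : ℕ, 1 ≤ H → H ≤ X → 2 / (lam * L) * H ≤ (cl P (p + 1 - H) (p + 1) : ℝ) := by
      intro H h1 h2
      by_contra h3
      exact n4 (by rw [hG4, mem_filter, mem_Ioc]; exact ⟨⟨hp1, hp2⟩, hP, H, h1, h2, not_le.1 h3⟩)
    apply hnb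
    intro a b hap hpb hbX
    obtain ⟨H1, hH1⟩ : ∃ H1, H1 = p - a := ⟨_, rfl⟩
    obtain ⟨H2, hH2⟩ : ∃ H2, H2 = b - p := ⟨_, rfl⟩
    have eb : b = p + H2 := by omega
    have ea : a = p - H1 := by omega
    have hlen : ((b : ℝ) - a) = H1 + H2 := by
      have : b = a + (H1 + H2) := by omega
      rw [this]; push_cast; ring
    constructor
    · -- lower bound
      have k1 := m4 H1 (by omega) (by omega)
      have k2 := m3 (H2 + 1) (by omega) (by omega)
      have k3 : cl P (p + 1 - H1) (p + 1) = co P a p := by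
        have : p + 1 - H1 = a + 1 := by omega
        rw [this, cl_succ]
      have k4 : cl P p (p + (H2 + 1)) = cl P p (p + 1) + co P p b := by
        rw [← cl_succ, eb]
        exact (cl_add (by omega) (by omega)).symm
      have k5 := cl_le_one (P := P) p
      have k6 : co P a p + co P p b = co P a b := co_add (by omega) (by omega)
      have k7 : 1 ≤ co P a b := by
        unfold co
        apply Finset.card_pos.2
        exact ⟨p, by rw [mem_filter, mem_Ioc]; exact ⟨⟨hap, hpb⟩, hP⟩⟩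
      have k6' : (co P a p : ℝ) + co P p b = co P a b := by exact_mod_cast k6
      have k7' : (1 : ℝ) ≤ co P a b := by exact_mod_cast k7
      rw [k3] at k1
      rw [k4] at k2
      push_cast at k2
      have k8 : 2 / (lam * L) * (H1 + H2) ≤ 2 * (co P a b : ℝ) := by
        have : 0 ≤ 2 / (lam * L) := hc0.le
        nlinarith
      rw [hlen]
      have k9 : 2 / (lam * L) * (H1 + H2) = 2 * (((H1 : ℝ) + H2) / (lam * L)) := by ring
      linarith
    · -- upper bound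
      have k1 := m2 H1 (by omega) (by omega)
      have k2 : (co P' p b : ℝ) ≤ lam / 2 * (1 + (H2 : ℝ) / L) := by
        rcases Nat.eq_zero_or_pos H2 with h0 | h0
        · have : b = p := by omega
          rw [this, co_self]
          push_cast
          positivity
        · have := m1 H2 h0 (by omega)
          rwa [← eb] at this
      have k3 : p - H1 = a := by omega
      rw [k3] at k1
      have k6' : (co P' a p : ℝ) + co P' p b = co P' a b := by
        exact_mod_cast co_add (P := P') (a := a) (b := p) (c := b) (by omega) (by omega)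
      rw [← k6', hlen]
      have k10 : 0 ≤ lam * (((H1 : ℝ) + H2) / L) := by positivity
      have k8 : lam / 2 * (1 + (H1 : ℝ) / L) + lam / 2 * (1 + (H2 : ℝ) / L) =
          lam * (1 + ((H1 : ℝ) + H2) / L) - lam * (((H1 : ℝ) + H2) / L) / 2 := by ring
      linarith
  have hcard := card_le_card hsub
  have hcard2 := hcard.trans ((card_union_le _ _).trans
    (add_le_add (card_union_le _ _) (card_union_le _ _)))
  have hcard3 : (((Finset.Ioc X (2 * X)).filter (fun p => P p ∧ ¬ Bal P P' lam L X p)).card : ℝ) ≤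
      (G1.card + G2.card) + (G3.card + G4.card) := by exact_mod_cast hcard2
  have e1 : √(C1 * C2 / (lam / 2)) = √(2 * C1 * C2) / √lam := by
    rw [← Real.sqrt_div (by positivity)]
    congr 1
    field_simp
  have e2 : 1 / lam ≤ 1 / √lam := by
    apply one_div_le_one_div_of_le (Real.sqrt_pos.2 hl0)
    rw [Real.sqrt_le_left (by linarith)]
    nlinarith
  rw [e1] at a1 a2
  have e3 : 2 * (2 / (lam * L)) * X = 4 * (1 / lam) * (X / L) := by
    field_simp; ring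
  rw [e3] at a3 a4
  have e4 : 4 * (1 / lam) * (X / L) ≤ 4 * (1 / √lam) * (X / L) := by gcongr
  calc _ ≤ _ := hcard3
    _ ≤ (2 * (√(2 * C1 * C2) / √lam) * X / L + 2 * (√(2 * C1 * C2) / √lam) * X / L) +
        (4 * (1 / √lam) * (X / L) + 4 * (1 / √lam) * (X / L)) := by linarith
    _ = (4 * √(2 * C1 * C2) + 8) / √lam * (X / L) := by ring

end Pool.Agent.H243.BP
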